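import Pool.Agent.W910.SY.Basic

set_option autoImplicit false
set_option linter.unusedSectionVars false

namespace Pool.Agent.W654.SY

open Pool.Agent.W868 Pool.Agent.W868.PName Pool.Agent.W910.SY
open ZFSet (pair)

variable {P : Type} [Preorder P] [OrderTop P]

theorem emp_mem (π : Pkg P) : (emp : PName P) ∈ π.N := by
  have h := (π.closed rMem (by simp [baseRules]) _ (query2e π.om π.om (π.gC 0))).1
  exact h

/-- genericity for a set of conditions -/
theorem meet (π : Pkg P) {A : Set P} (hA : Sys.nm P A ∈ π.N) :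
    (∃ k, ∃ c ∈ A, π.g k ≤ c) ∨ ∃ k, ∀ r ≤ π.g k, r ∉ A := by
  obtain ⟨k, h1, h2⟩ := π.gen ⟨0, .mem (Sum.inr emp) (Sum.inr (Sys.nm P A)), Fin.elim0, ⊤⟩
    ⟨⟨tOver_inr.2 (emp_mem π), tOver_inr.2 hA⟩, fun i => i.elim0⟩
  rcases h1 with h1 | h1
  · obtain ⟨z, -, c, hz, hc, -⟩ := h2 h1
    obtain ⟨⟨r, hr⟩, -, rfl⟩ := hz
    exact Or.inl ⟨k, r, hr, hc⟩
  · refine Or.inr ⟨k, fun r hr hrA => h1 r hr ?_⟩
    change Fmem emp (Sys.nm P A) r
    rw [fmem_iff]
    exact fun q hq => ⟨q, le_rfl, emp, r, ⟨⟨r, hrA⟩, rfl, rfl⟩, hq, Feq.refl _ _⟩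

/-- being a function is uniformly definable -/
theorem ndfn_isFunc {S : Set (PName P)} {x y f : PName P} (hx : x ∈ S) (hy : y ∈ S)
    (hf : f ∈ S) : NDfn S fun π (_ : Fin 0 → ZFSet.{0}) =>
      ZFSet.IsFunc (π.val x) (π.val y) (π.val f) := by
  have h : NDfn S fun π (_ : Fin 0 → ZFSet.{0}) =>
      (∀ p ∈ π.val f, ∃ a ∈ π.val x, ∃ b ∈ π.val y, p = pair a b) ∧
      ∀ a ∈ π.val x, ∃ b ∈ π.val y, pair a b ∈ π.val f ∧
        ∀ c ∈ π.val y, pair a c ∈ π.val f → c = b := by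
    refine NDfn.and ?_ ?_
    · refine NDfn.ball (NDfnF.val hf) (NDfn.bex (NDfnF.val hx) (NDfn.bex (NDfnF.val hy) ?_))
      exact NDfn.eq (NDfnF.proj 2) (NDfnF.pair (NDfnF.proj 1) (NDfnF.proj 0))
    · refine NDfn.ball (NDfnF.val hx) (NDfn.bex (NDfnF.val hy) (NDfn.and ?_ ?_))
      · exact NDfn.mem (NDfnF.pair (NDfnF.proj 1) (NDfnF.proj 0)) (NDfnF.val hf)
      · refine NDfn.ball (NDfnF.val hy) (NDfn.imp ?_ ?_)
        · exact NDfn.mem (NDfnF.pair (NDfnF.proj 2) (NDfnF.proj 0)) (NDfnF.val hf)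
        · exact NDfn.eq (NDfnF.proj 0) (NDfnF.proj 1)
  refine h.congr fun π hπ v hv => ?_
  constructor
  · rintro ⟨h1, h2⟩
    have h3 : π.val f ⊆ ZFSet.prod (π.val x) (π.val y) := by
      intro p hp
      obtain ⟨a, ha, b, hb, rfl⟩ := h1 p hp
      exact ZFSet.mem_prod.2 ⟨a, ha, b, hb, rfl⟩
    refine ⟨h3, fun z hz => ?_⟩
    obtain ⟨b, hb, h4, h5⟩ := h2 z hz
    exact ⟨b, h4, fun c hc => h5 c (ZFSet.pair_mem_prod.1 (h3 hc)).2 hc⟩
  · rintro ⟨h1, h2⟩
    refine ⟨fun p hp => ZFSet.mem_prod.1 (h1 hp), fun a ha => ?_⟩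
    obtain ⟨b, hb, h3⟩ := h2 a ha
    exact ⟨b, (ZFSet.pair_mem_prod.1 (h1 hb)).2, hb, fun c _ hc => h3 c hc⟩

theorem main : S_CLO := by
  intro P _ _ S hD π hC X hX s hs hfun
  obtain ⟨X', ⟨hX'N, hX'H⟩, rfl⟩ := hX
  obtain ⟨s', hs'N, rfl⟩ := hs
  set T : Set P := {r | ∃ σ, S.HS σ ∧ Feq s' σ r} with hT
  have hnT : Sys.nm P T ∈ π.N :=
    (hC S.rSn (by simp [Sys.rules]) _ (query2 hs'N hs'N (π.gC 0))).1
  rcases meet π hnT with ⟨k, c, ⟨σ, hσ, hσe⟩, hkc⟩ | ⟨k0, hk0⟩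
  · -- there is a symmetric name
    have hex : ∃ σ, S.HS σ ∧ Feq (tv (Fin.elim0 : Fin 0 → PName P) (Sum.inr s')) σ (π.g k) :=
      ⟨σ, hσ, hσe.mono hkc⟩
    have h1 := (hC S.rSy (by simp [Sys.rules]) _ (query2 hs'N hs'N (π.gC k))).1
    unfold Sys.rSy at h1
    simp only [dif_pos hex] at h1
    refine ⟨hex.choose, ⟨h1, hex.choose_spec.1⟩, ?_⟩
    exact ((π.val_eq_iff hs'N h1).2 ⟨k, hex.choose_spec.2⟩).symm
  · exfalso
    have hfun' : ZFSet.IsFunc (π.val (check ZFSet.omega)) (π.val X') (π.val s') := by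
      have : π.val (check ZFSet.omega) = ZFSet.omega := π.hat_omega
      rw [this]
      exact hfun
    obtain ⟨k1, hk1⟩ := forcing_theorem (S := {s', X', check ZFSet.omega})
      (ndfn_isFunc (by simp) (by simp) (by simp)) π (by
        rintro y (rfl | rfl | rfl)
        · exact hs'N
        · exact hX'N
        · exact π.om) hfun'
    set p0 := π.g (max k0 k1) with hp0
    have hT0 : ∀ r ≤ p0, r ∉ T := fun r hr => hk0 r (hr.trans (π.g_le_left _ _))
    have hF0 : ∀ π' : Pkg P, s' ∈ π'.N → X' ∈ π'.N → π'.g 0 ≤ p0 →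
        ZFSet.IsFunc ZFSet.omega (π'.val X') (π'.val s') := by
      intro π' h1 h2 h3
      have h4 := hk1 π' (by
        rintro y (rfl | rfl | rfl)
        · exact h1
        · exact h2
        · exact π'.om) ⟨0, h3.trans (π.g_le_right _ _)⟩
      have : π'.val (check ZFSet.omega) = ZFSet.omega := π'.hat_omega
      rw [this] at h4
      exact h4
    -- deciding the values
    obtain ⟨p', hp', H, hH, a, m, hm, hfix, hdense, hle⟩ := hD
      (fun n => {r | ∃ x, S.HS x ∧ Fmem (opN (check (nat n)) x) s' r}) p0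
      (by
        rintro n q ⟨x, hx, hxs⟩ r hr
        exact ⟨x, hx, hxs.mono hr⟩)
      (by
        intro n q hq
        obtain ⟨π', hA, hg⟩ := exists_pkg' {s', X', check (nat n)} (Set.Finite.countable
          (Set.toFinite _)) q
        have hs1 : s' ∈ π'.N := hA (by simp)
        have hX1 : X' ∈ π'.N := hA (by simp)
        have hn1 : (check (nat n) : PName P) ∈ π'.N := hA (by simp)
        have hF := hF0 π' hs1 hX1 (hg.trans_le hq)
        obtain ⟨w, hw, -⟩ := hF.2 (nat n) (mem_omega_iff.2 ⟨n, rfl⟩)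
        have hwX := (ZFSet.pair_mem_prod.1 (hF.1 hw)).2
        obtain ⟨x, hx, c, hxc, -, rfl⟩ := π'.mem_val.1 hwX
        have hval : π'.val (opN (check (nat n)) x) = pair (nat n) (π'.val x) := by
          rw [π'.val_opN hn1 hx]
          congr 1
          exact π'.hat_nat n
        rw [← hval] at hw
        obtain ⟨i, hi⟩ := (π'.val_mem_iff (π'.opN_mem hn1 hx) hs1).1 hw
        exact ⟨π'.g i, hg ▸ π'.g_anti (Nat.zero_le i), x, hX'H.el hxc, hi⟩)
    choose x hxH hxF using hm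
    set σ : PName P := PName.mk (ℕ × ℕ) (fun t => opN (check (nat t.1)) (x t.1 t.2))
      (fun t => a t.1 t.2) with hσ
    have hσH : S.HS σ := by
      refine S.hs_iff.2 ⟨?_, ?_⟩
      · obtain ⟨K1, hK1, hK1f⟩ := S.exists_ctb
          (v := fun i => x (Nat.unpair i).1 (Nat.unpair i).2) (fun i => (hxH _ _).sym)
        obtain ⟨K, hK, hKH, hKK⟩ := S.inf2 hH hK1
        have hxf : ∀ n j, S.Fix K1 (x n j) := by
          intro n j
          have := hK1f (Nat.pair n j)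
          simpa only [Nat.unpair_pair] using this
        refine ⟨K, hK, fun g hg p => ?_⟩
        have hop : ∀ n j q, Feq (act (S.ac g) (opN (check (nat n)) (x n j)))
            (opN (check (nat n)) (x n j)) q := by
          intro n j q
          rw [act_opN (S.top g), act_check (S.top g)]
          exact feq_opN (Feq.refl _ _) (hxf n j g (hKK hg) q)
        rw [feq_iff']
        constructor
        · intro z c hz q _ hqc
          obtain ⟨z, c, ⟨⟨n, j⟩, rfl, rfl⟩, rfl, rfl⟩ := el_act.1 hz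
          refine ⟨q, le_rfl, opN (check (nat n)) (x n j), a n j, ⟨(n, j), rfl, rfl⟩, ?_,
            hop n j q⟩
          have := hfix n j g (hKH hg)
          change q ≤ S.ac g (a n j) at hqc
          rwa [this] at hqc
        · rintro w d ⟨⟨n, j⟩, rfl, rfl⟩ q _ hqc
          refine ⟨q, le_rfl, act (S.ac g) (opN (check (nat n)) (x n j)), S.ac g (a n j),
            el_act.2 ⟨_, _, ⟨(n, j), rfl, rfl⟩, rfl, rfl⟩, ?_, hop n j q⟩
          rw [hfix n j g (hKH hg)]
          exact hqc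
      · rintro z c ⟨⟨n, j⟩, rfl, rfl⟩
        exact S.hs_opN (S.hs_check _) (hxH n j)
    refine hT0 p' hp' ⟨σ, hσH, feq_dense fun q hq => ?_⟩
    obtain ⟨π', hA, hg⟩ := exists_pkg' ({s', X', σ} ∪
      (Set.range fun t : ℕ × ℕ => opN (check (nat t.1)) (x t.1 t.2)) ∪
      (Set.range fun t : ℕ × ℕ => x t.1 t.2) ∪ (Set.range fun n : ℕ => check (nat n)) ∪
      Set.range fun n : ℕ => Sys.nm P {r | ∃ j, r ≤ a n j})
      ((((((Set.toFinite _).countable).union (Set.countable_range _)).union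
        (Set.countable_range _)).union (Set.countable_range _)).union
        (Set.countable_range _)) q
    have hs1 : s' ∈ π'.N := hA (by simp)
    have hX1 : X' ∈ π'.N := hA (by simp)
    have hσ1 : σ ∈ π'.N := hA (by simp)
    have hop1 : ∀ n j, opN (check (nat n)) (x n j) ∈ π'.N := fun n j =>
      hA (Or.inl (Or.inl (Or.inl (Or.inr ⟨(n, j), rfl⟩))))
    have hx1 : ∀ n j, x n j ∈ π'.N := fun n j => hA (Or.inl (Or.inl (Or.inr ⟨(n, j), rfl⟩)))
    have hn1 : ∀ n, (check (nat n) : PName P) ∈ π'.N := fun n => hA (Or.inl (Or.inr ⟨n, rfl⟩))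
    have hnm1 : ∀ n, Sys.nm P {r | ∃ j, r ≤ a n j} ∈ π'.N := fun n => hA (Or.inr ⟨n, rfl⟩)
    have hgq : ∀ i, π'.g i ≤ p' := fun i => (π'.g_anti (Nat.zero_le i)).trans (hg.trans_le hq)
    have hF := hF0 π' hs1 hX1 ((hgq 0).trans hp')
    have hsub1 : ∀ n j i, π'.g i ≤ a n j →
        π'.val (opN (check (nat n)) (x n j)) ∈ π'.val s' := by
      intro n j i hi
      exact (π'.val_mem_iff (hop1 n j) hs1).2 ⟨i, (hxF n j).mono (hle n j _ (hgq i) hi)⟩
    have hval : ∀ n j, π'.val (opN (check (nat n)) (x n j)) = pair (nat n) (π'.val (x n j)) := by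
      intro n j
      rw [π'.val_opN (hn1 n) (hx1 n j)]
      congr 1
      exact π'.hat_nat n
    have heq : π'.val s' = π'.val σ := by
      ext z
      constructor
      · intro hz
        obtain ⟨u, hu, w, hw, rfl⟩ := ZFSet.mem_prod.1 (hF.1 hz)
        obtain ⟨n, rfl⟩ := mem_omega_iff.1 hu
        rcases meet π' (hnm1 n) with ⟨i, c, ⟨j, hj⟩, hic⟩ | ⟨i, hi⟩
        · have hij := hic.trans hj
          have h1 := hsub1 n j i hij
          rw [hval] at h1
          obtain ⟨v, -, hv⟩ := hF.2 (nat n) hu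
          have e1 := hv _ h1
          have e2 := hv _ hz
          rw [show w = π'.val (x n j) from e2.trans e1.symm, ← hval]
          exact π'.val_mem_val (hop1 n j) ⟨(n, j), rfl, rfl⟩ hij
        · obtain ⟨r, hr, j, hj⟩ := hdense n (π'.g i) (hgq i)
          exact absurd ⟨j, hj⟩ (hi r hr)
      · intro hz
        obtain ⟨y, -, c, ⟨⟨n, j⟩, rfl, rfl⟩, ⟨i, hi⟩, rfl⟩ := π'.mem_val.1 hz
        exact hsub1 n j i hi
    obtain ⟨i, hi⟩ := (π'.val_eq_iff hs1 hσ1).1 heq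
    exact ⟨π'.g i, hg ▸ π'.g_anti (Nat.zero_le i), hi⟩

end Pool.Agent.W654.SY
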